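import Pool.Agent.BCS.Stmts

/-!
# Row T2D of squad BCS: the two-dimensional estimate
-/

noncomputable section

open scoped ContDiff Topology ComplexConjugate
open Set MeasureTheory

namespace Pool.Agent.BCS.H13

open Pool.Agent.BCS

theorem contDiff_cp : ContDiff ℝ ∞ cp := by
  unfold cp
  exact Complex.contDiff_exp.comp (Complex.ofRealCLM.contDiff.mul contDiff_const)

theorem cp_per (θ : ℝ) : cp (θ + 2 * Real.pi) = cp θ := by
  unfold cp
  have h : ((θ + 2 * Real.pi : ℝ) : ℂ) * Complex.I = θ * Complex.I + 2 * Real.pi * Complex.I := by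
    push_cast
    ring
  rw [h, Complex.exp_add, Complex.exp_two_pi_mul_I, mul_one]

theorem half_sq (θ : ℝ) : Complex.exp ((θ / 2 : ℝ) * Complex.I) ^ 2 = cp θ := by
  unfold cp
  rw [← Complex.exp_nat_mul]
  congr 1
  push_cast
  ring

theorem Xf_add (H v : ℂ → ℂ) (hv : V0 v) : Xf (fun z => H z + v z) = Xf H := by
  funext θ
  have h1 : ‖Complex.exp ((θ / 2 : ℝ) * Complex.I)‖ = 1 := Complex.norm_exp_ofReal_mul_I _
  have h2 := hv.2 _ h1
  rw [half_sq] at h2
  unfold Xf
  rw [mul_add, Complex.add_re, h2, add_zero]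

theorem contDiff_poly (P : Polynomial ℂ) : ContDiff ℝ ∞ (fun z : ℂ => P.eval z) :=
  (P.differentiable.contDiff (n := ∞)).restrict_scalars ℝ

theorem contDiff_Xf {w : ℂ → ℂ} (hw : ContDiff ℝ ∞ w) : ContDiff ℝ ∞ (Xf w) := by
  unfold Xf
  have h1 : ContDiff ℝ ∞ (fun θ : ℝ => Complex.exp ((θ / 2 : ℝ) * Complex.I)) :=
    Complex.contDiff_exp.comp
      ((Complex.ofRealCLM.contDiff.comp (contDiff_id.div_const 2)).mul contDiff_const)
  exact Complex.reCLM.contDiff.comp (h1.mul (hw.comp contDiff_cp))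

theorem sq_diff {x y e A : ℝ} (h : |y - x| ≤ e) (hx : |x| ≤ A) (he : 0 ≤ e) :
    |y ^ 2 - x ^ 2| ≤ e * (2 * A + e) := by
  have h1 : y ^ 2 - x ^ 2 = (y - x) * ((y - x) + 2 * x) := by ring
  rw [h1, abs_mul]
  have h2 : |(y - x) + 2 * x| ≤ 2 * A + e := by
    calc |(y - x) + 2 * x| ≤ |y - x| + |2 * x| := abs_add_le _ _
      _ ≤ e + 2 * A := by
          rw [abs_mul, abs_of_pos (by norm_num : (0 : ℝ) < 2)]
          linarith
      _ = 2 * A + e := by ring
  exact mul_le_mul h h2 (abs_nonneg _) he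

theorem int_diff {f g : ℝ → ℝ} (hf : Continuous f) (hg : Continuous g) {C : ℝ}
    (h : ∀ θ ∈ Icc (0 : ℝ) (2 * Real.pi), |f θ - g θ| ≤ C) :
    |(∫ θ in (0 : ℝ)..(2 * Real.pi), f θ) - ∫ θ in (0 : ℝ)..(2 * Real.pi), g θ| ≤
      C * (2 * Real.pi) := by
  rw [← intervalIntegral.integral_sub (hf.intervalIntegrable _ _) (hg.intervalIntegrable _ _)]
  have h1 := intervalIntegral.norm_integral_le_of_norm_le_const
    (a := (0 : ℝ)) (b := 2 * Real.pi) (f := fun θ => f θ - g θ) (C := C) (by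
      intro x hx
      rw [uIoc_of_le (by positivity)] at hx
      exact h x ⟨hx.1.le, hx.2⟩)
  rw [Real.norm_eq_abs] at h1
  have h2 : |2 * Real.pi - 0| = 2 * Real.pi := by
    rw [sub_zero, abs_of_nonneg (by positivity)]
  rwa [h2] at h1

theorem bound (f : ℝ → ℝ) (hf : Continuous f) :
    ∃ A : ℝ, 0 ≤ A ∧ ∀ θ ∈ Icc (0 : ℝ) (2 * Real.pi), |f θ| ≤ A := by
  obtain ⟨A, hA⟩ := isCompact_Icc.exists_bound_of_continuousOn (s := Icc (0 : ℝ) (2 * Real.pi))
    hf.continuousOn
  refine ⟨|A|, abs_nonneg _, fun θ hθ => ?_⟩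
  have := hA θ hθ
  rw [Real.norm_eq_abs] at this
  exact this.trans (le_abs_self A)

theorem continuous_Zf {p X : ℝ → ℝ} (hp : ContDiff ℝ 1 p) (hX : ContDiff ℝ 1 X) :
    Continuous (Zf p X) := by
  unfold Zf
  have h1 : Continuous (deriv X) := hX.continuous_deriv le_rfl
  have h2 : Continuous (deriv p) := hp.continuous_deriv le_rfl
  have h3 := hp.continuous
  have h4 := hX.continuous
  fun_prop

theorem t2d (t2a : T2aStmt) (exi : ExiStmt) (apx : ApxStmt) (tgt : TgtStmt) : T2dStmt := by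
  intro n M φ F hyp
  obtain ⟨hn, hM, hφ, hF, -, -⟩ := id hyp
  set p : ℝ → ℝ := fun θ => φ (cp θ) with hp_def
  have hφ1 : ContDiff ℝ 1 φ := hφ.of_le (by norm_num)
  have hp : ContDiff ℝ 1 p := hφ1.comp (contDiff_cp.of_le (by exact_mod_cast le_top))
  have hpper : ∀ θ, p (θ + 2 * Real.pi) = p θ := fun θ => by
    simp only [hp_def, cp_per]
  obtain ⟨X, hX, hXa, hX2, hZ2⟩ := tgt p hp hpper
  set L : ℝ := ∫ θ in (0 : ℝ)..(2 * Real.pi), Real.exp (p θ) with hL
  have hLc : cI (fun z => Real.exp (φ z)) = L := rfl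
  have hLpos : 0 < L := by
    rw [hL]
    refine intervalIntegral.intervalIntegral_pos_of_pos ?_ (fun x => Real.exp_pos _)
      (by positivity)
    exact (Real.continuous_exp.comp hp.continuous).intervalIntegrable _ _
  obtain ⟨A, hA0, hA⟩ := bound X hX.continuous
  obtain ⟨Bz, hB0, hB⟩ := bound (Zf p X) (continuous_Zf hp hX)
  obtain ⟨C, hC0, hC⟩ := bound (fun θ => Real.exp (-p θ) * (2 + |deriv p θ|)) (by
    have h2 : Continuous (deriv p) := hp.continuous_deriv le_rfl
    have h3 := hp.continuous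
    fun_prop)
  have hMp : 0 < M - (n - 1) := by linarith
  have hMq : 0 < M + (n - 1) := by linarith
  have hpi := Real.pi_pos
  -- the estimate with an error
  have key : ∀ ε : ℝ, 0 < ε → ε ≤ 1 → (M - (n - 1)) * (L / 2) ≤ 2 * Real.pi ^ 2 / L /
      (M + (n - 1)) + ((M - (n - 1)) * ((2 * A + 1) * (2 * Real.pi)) +
        C * (2 * Bz + C) * (2 * Real.pi) / (M + (n - 1)) + 2 * (n - 1)) * ε := by
    intro ε hε hε1
    obtain ⟨P, hP⟩ := apx X ε hX hXa hε
    set H : ℂ → ℂ := fun z => P.eval z with hH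
    have hHc : ContDiff ℝ ∞ H := contDiff_poly P
    have hH2 : ContDiff ℝ 2 H := by exact_mod_cast contDiff_infty.1 hHc 2
    obtain ⟨v, hv, hQ⟩ := exi H (fun z => n / 4 * Real.exp (φ z)) ε hH2
      (continuous_const.mul (Real.continuous_exp.comp hφ.continuous))
      (fun z => mul_pos (by linarith) (Real.exp_pos _)) hε
    have hv2 : ContDiff ℝ 2 v := by exact_mod_cast contDiff_infty.1 hv.1 2
    have hw : ContDiff ℝ 2 (fun z => H z + v z) := hH2.add hv2
    have hT := t2a n M φ F (fun z => H z + v z) hyp hw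
    rw [Xf_add H v hv] at hT
    set Y : ℝ → ℝ := Xf H with hY
    have hYc : ContDiff ℝ 1 Y := (contDiff_Xf hHc).of_le (by exact_mod_cast le_top)
    -- the defect
    have hdef : dI (fun z => Real.exp (-φ z) *
        Complex.normSq (dzb (fun z => H z + v z) z - (n / 4 * Real.exp (φ z) : ℝ) *
          conj (H z + v z))) ≤ n / 4 * ε := by
      have e1 : dI (fun z => Real.exp (-φ z) *
        Complex.normSq (dzb (fun z => H z + v z) z - (n / 4 * Real.exp (φ z) : ℝ) *
          conj (H z + v z))) = n / 4 * dI (fun z => Complex.normSq (dzb (fun z => H z + v z) z -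
            ((n / 4 * Real.exp (φ z) : ℝ) : ℂ) * conj (H z + v z)) /
              (n / 4 * Real.exp (φ z))) := by
        unfold dI
        rw [← MeasureTheory.integral_const_mul]
        congr 1
        funext z
        beta_reduce
        rw [Real.exp_neg]
        have h1 : Real.exp (φ z) ≠ 0 := (Real.exp_pos _).ne'
        have h2 : n ≠ 0 := by linarith
        field_simp
      rw [e1]
      exact mul_le_mul_of_nonneg_left hQ (by linarith)
    have hn4 : 0 < n := by linarith
    have hcoef : 8 * (n - 1) / n * dI (fun z => Real.exp (-φ z) *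
        Complex.normSq (dzb (fun z => H z + v z) z - (n / 4 * Real.exp (φ z) : ℝ) *
          conj (H z + v z))) ≤ 2 * (n - 1) * ε := by
      have h1 : 0 ≤ 8 * (n - 1) / n := div_nonneg (by linarith) hn4.le
      have h2 := mul_le_mul_of_nonneg_left hdef h1
      have h3 : 8 * (n - 1) / n * (n / 4 * ε) = 2 * (n - 1) * ε := by
        field_simp
        ring
      rw [h3] at h2
      exact h2
    -- comparison of the integrals
    have hI1 := int_diff (f := fun θ => Y θ ^ 2) (g := fun θ => X θ ^ 2)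
      (hYc.continuous.pow 2) (hX.continuous.pow 2) (C := ε * (2 * A + 1)) (by
        intro θ hθ
        have h1 := sq_diff (hP θ).1 (hA θ hθ) hε.le
        have h2 : ε * (2 * A + ε) ≤ ε * (2 * A + 1) :=
          mul_le_mul_of_nonneg_left (by linarith) hε.le
        exact h1.trans h2)
    have hZd : ∀ θ ∈ Icc (0 : ℝ) (2 * Real.pi), |Zf p Y θ - Zf p X θ| ≤ C * ε := by
      intro θ hθ
      have h1 : Zf p Y θ - Zf p X θ = Real.exp (-p θ) *
          (2 * (deriv Y θ - deriv X θ) - deriv p θ * (Y θ - X θ)) := by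
        unfold Zf
        ring
      rw [h1, abs_mul, abs_of_pos (Real.exp_pos _)]
      have h2 : |2 * (deriv Y θ - deriv X θ) - deriv p θ * (Y θ - X θ)| ≤
          (2 + |deriv p θ|) * ε := by
        calc |2 * (deriv Y θ - deriv X θ) - deriv p θ * (Y θ - X θ)|
            ≤ |2 * (deriv Y θ - deriv X θ)| + |deriv p θ * (Y θ - X θ)| := abs_sub _ _
          _ ≤ 2 * ε + |deriv p θ| * ε := by
              rw [abs_mul, abs_mul, abs_of_pos (by norm_num : (0 : ℝ) < 2)]
              have g1 := (hP θ).2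
              have g2 := mul_le_mul_of_nonneg_left (hP θ).1 (abs_nonneg (deriv p θ))
              linarith
          _ = (2 + |deriv p θ|) * ε := by ring
      have h3 := hC θ hθ
      rw [abs_of_nonneg (mul_nonneg (Real.exp_pos _).le (by positivity))] at h3
      calc Real.exp (-p θ) * |2 * (deriv Y θ - deriv X θ) - deriv p θ * (Y θ - X θ)|
          ≤ Real.exp (-p θ) * ((2 + |deriv p θ|) * ε) :=
            mul_le_mul_of_nonneg_left h2 (Real.exp_pos _).le
        _ = Real.exp (-p θ) * (2 + |deriv p θ|) * ε := by ring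
        _ ≤ C * ε := mul_le_mul_of_nonneg_right h3 hε.le
    have hI2 := int_diff (f := fun θ => Zf p Y θ ^ 2) (g := fun θ => Zf p X θ ^ 2)
      ((continuous_Zf hp hYc).pow 2) ((continuous_Zf hp hX).pow 2)
      (C := C * ε * (2 * Bz + C)) (by
        intro θ hθ
        have h1 := sq_diff (hZd θ hθ) (hB θ hθ) (mul_nonneg hC0 hε.le)
        have h3 : C * ε ≤ C := by
          have := mul_le_mul_of_nonneg_left hε1 hC0
          linarith
        have h2 : C * ε * (2 * Bz + C * ε) ≤ C * ε * (2 * Bz + C) :=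
          mul_le_mul_of_nonneg_left (by linarith) (mul_nonneg hC0 hε.le)
        exact h1.trans h2)
    rw [hX2] at hI1
    rw [hZ2] at hI2
    have hJ1 := (abs_le.1 hI1).1
    have hJ2 := (abs_le.1 hI2).2
    have hT' : (M - (n - 1)) * ∫ θ in (0 : ℝ)..(2 * Real.pi), Y θ ^ 2 ≤
        (∫ θ in (0 : ℝ)..(2 * Real.pi), Zf p Y θ ^ 2) / (M + (n - 1)) + 2 * (n - 1) * ε := by
      have := hT
      linarith
    have g1 : (M - (n - 1)) * (L / 2 - ε * (2 * A + 1) * (2 * Real.pi)) ≤
        (M - (n - 1)) * ∫ θ in (0 : ℝ)..(2 * Real.pi), Y θ ^ 2 :=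
      mul_le_mul_of_nonneg_left (by linarith) hMp.le
    have g2 : (∫ θ in (0 : ℝ)..(2 * Real.pi), Zf p Y θ ^ 2) / (M + (n - 1)) ≤
        (2 * Real.pi ^ 2 / L + C * ε * (2 * Bz + C) * (2 * Real.pi)) / (M + (n - 1)) :=
      div_le_div_of_nonneg_right (by linarith) hMq.le
    have g3 : (2 * Real.pi ^ 2 / L + C * ε * (2 * Bz + C) * (2 * Real.pi)) / (M + (n - 1)) =
        2 * Real.pi ^ 2 / L / (M + (n - 1)) +
          C * (2 * Bz + C) * (2 * Real.pi) / (M + (n - 1)) * ε := by
      rw [add_div]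
      ring
    have g4 : (M - (n - 1)) * (L / 2 - ε * (2 * A + 1) * (2 * Real.pi)) =
        (M - (n - 1)) * (L / 2) - (M - (n - 1)) * ((2 * A + 1) * (2 * Real.pi)) * ε := by
      ring
    rw [g3] at g2
    rw [g4] at g1
    linarith
  -- the limit
  set K : ℝ := (M - (n - 1)) * ((2 * A + 1) * (2 * Real.pi)) +
        C * (2 * Bz + C) * (2 * Real.pi) / (M + (n - 1)) + 2 * (n - 1) with hK
  have hK0 : 0 < K := by
    rw [hK]
    have h1 : 0 ≤ (M - (n - 1)) * ((2 * A + 1) * (2 * Real.pi)) := by positivity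
    have h2 : 0 ≤ C * (2 * Bz + C) * (2 * Real.pi) / (M + (n - 1)) := by positivity
    linarith
  have hlim : (M - (n - 1)) * (L / 2) ≤ 2 * Real.pi ^ 2 / L / (M + (n - 1)) := by
    apply le_of_forall_pos_le_add
    intro δ hδ
    have h1 : 0 < min 1 (δ / K) := lt_min one_pos (div_pos hδ hK0)
    have h2 := key (min 1 (δ / K)) h1 (min_le_left _ _)
    have h3 : K * min 1 (δ / K) ≤ δ := by
      calc K * min 1 (δ / K) ≤ K * (δ / K) := mul_le_mul_of_nonneg_left (min_le_right _ _) hK0.le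
        _ = δ := by field_simp
    linarith
  rw [hLc]
  have hD : 0 < M ^ 2 - (n - 1) ^ 2 := by
    have : M ^ 2 - (n - 1) ^ 2 = (M - (n - 1)) * (M + (n - 1)) := by ring
    rw [this]
    exact mul_pos hMp hMq
  rw [le_div_iff₀ (Real.sqrt_pos.2 hD)]
  have h5 : (L * √(M ^ 2 - (n - 1) ^ 2)) ^ 2 ≤ (2 * Real.pi) ^ 2 := by
    rw [mul_pow, Real.sq_sqrt hD.le]
    have h6 : (M - (n - 1)) * (L / 2) * (2 * L * (M + (n - 1))) ≤
        2 * Real.pi ^ 2 / L / (M + (n - 1)) * (2 * L * (M + (n - 1))) :=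
      mul_le_mul_of_nonneg_right hlim (by positivity)
    have h7 : 2 * Real.pi ^ 2 / L / (M + (n - 1)) * (2 * L * (M + (n - 1))) =
        (2 * Real.pi) ^ 2 := by
      field_simp
    rw [h7] at h6
    calc L ^ 2 * (M ^ 2 - (n - 1) ^ 2) = (M - (n - 1)) * (L / 2) * (2 * L * (M + (n - 1))) := by
          ring
      _ ≤ (2 * Real.pi) ^ 2 := h6
  exact abs_le_of_sq_le_sq' h5 (by positivity) |>.2

end Pool.Agent.BCS.H13
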